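import Pool.Agent.H20.MFL.RLF
import Pool.Agent.H52.MFQ.TPH

/-!
# MFL, row LIM: the Taylor coefficients at `a` are limits
-/

set_option autoImplicit false

open Module MvPolynomial

namespace Pool.MFL

open Pool.MFQ Pool.MFM

section

variable {R σ τ J : Type} [CommRing R] [Fintype τ]

theorem iLR_homog {n : ℕ} (hn : 1 ≤ n) {P : LmR R σ τ} (h : HomR n P) :
    (iLR P).IsHomogeneous n := by
  refine (h.1.rename_isHomogeneous).add ?_
  refine IsHomogeneous.sum _ _ _ fun i _ => ?_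
  have := ((h.2 i).rename_isHomogeneous (f := (Sum.inl : σ → σ ⊕ τ))).mul
    (isHomogeneous_X R (Sum.inr i : σ ⊕ τ))
  rwa [Nat.sub_add_cancel hn] at this

theorem aeval_homog {κ : Type} {w : J → ℕ} {k : ℕ} {F : MvPolynomial J R}
    (hF : F.IsWeightedHomogeneous w k) {P : J → MvPolynomial κ R}
    (hP : ∀ j, (P j).IsHomogeneous (w j)) : (aeval P F).IsHomogeneous k := by
  rw [← F.support_sum_monomial_coeff, map_sum]
  refine IsHomogeneous.sum _ _ _ fun β hβ => ?_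
  rw [aeval_monomial]
  have h1 := hF (mem_support_iff.1 hβ)
  rw [Finsupp.weight_apply] at h1
  have h2 : (β.prod fun j e => P j ^ e).IsHomogeneous k := by
    rw [← h1]
    unfold Finsupp.prod Finsupp.sum
    apply IsHomogeneous.prod
    intro j _
    have h3 := (hP j).pow (β j)
    show (P j ^ β j).IsHomogeneous (β j • w j)
    rwa [smul_eq_mul, mul_comm]
  have h3 := (isHomogeneous_C κ (coeff β F)).mul h2
  rwa [zero_add] at h3

end

section

variable {s q : ℕ} {c : Fin s ⊕ Fin q → Fin s ⊕ Fin q → Fin s ⊕ Fin q → ℂ}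
  {α : Fin s ⊕ Fin q → Fin s ⊕ Fin q → Polynomial ℂ} {K k : ℕ}

theorem inG_homog {G : MvPolynomial (Fin s ⊕ Fin q) (Polynomial ℂ)} (h : InG c α K k G) :
    G.IsHomogeneous k := by
  obtain ⟨m, F, hF, hA⟩ := h
  have h1 : (aeval (fun x : JK c α K => iLR x.1.2) F).IsHomogeneous k :=
    aeval_homog hF fun x => iLR_homog (jk_one x) (jk_hom x)
  rw [hA] at h1
  intro β hβ
  apply h1
  rw [coeff_C_mul]
  exact mul_ne_zero (pow_ne_zero _ Polynomial.X_ne_zero) hβ

theorem inG_zero : InG c α K k 0 :=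
  ⟨0, 0, isWeightedHomogeneous_zero _ _ _, by simp⟩

theorem inG_add {G G' : MvPolynomial (Fin s ⊕ Fin q) (Polynomial ℂ)} (h : InG c α K k G)
    (h' : InG c α K k G') : InG c α K k (G + G') := by
  obtain ⟨m, F, hF, hA⟩ := h
  obtain ⟨m', F', hF', hA'⟩ := h'
  refine ⟨m + m', C (Polynomial.X ^ m') * F + C (Polynomial.X ^ m) * F',
    (wh_CMul _ hF).add (wh_CMul _ hF'), ?_⟩
  rw [map_add, map_mul, map_mul, hA, hA', MvPolynomial.aeval_C, MvPolynomial.aeval_C,
    MvPolynomial.algebraMap_eq, pow_add, C_mul]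
  ring

theorem inG_smul {G : MvPolynomial (Fin s ⊕ Fin q) (Polynomial ℂ)} (r : Polynomial ℂ)
    (h : InG c α K k G) : InG c α K k (C r * G) := by
  obtain ⟨m, F, hF, hA⟩ := h
  refine ⟨m, C r * F, wh_CMul _ hF, ?_⟩
  rw [map_mul, hA, MvPolynomial.aeval_C, MvPolynomial.algebraMap_eq]
  ring

theorem inG_sat {G : MvPolynomial (Fin s ⊕ Fin q) (Polynomial ℂ)}
    (h : InG c α K k (C Polynomial.X * G)) : InG c α K k G := by
  obtain ⟨m, F, hF, hA⟩ := h
  refine ⟨m + 1, F, hF, ?_⟩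
  rw [hA, pow_succ, C_mul]
  ring

end

section

variable {R κ : Type} [CommRing R] [Fintype κ] [DecidableEq κ]

/-- the exponents of degree `k` -/
noncomputable def Ek (κ : Type) [Fintype κ] [DecidableEq κ] (k : ℕ) : Finset (κ →₀ ℕ) :=
  Finset.finsuppAntidiag Finset.univ k

theorem mem_Ek {k : ℕ} {β : κ →₀ ℕ} : β ∈ Ek κ k ↔ β.degree = k := by
  unfold Ek
  rw [Finset.mem_finsuppAntidiag]
  constructor
  · rintro ⟨h, _⟩
    rw [← h, Finsupp.degree_eq_sum]
  · intro h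
    refine ⟨?_, Finset.subset_univ _⟩
    rw [← h, Finsupp.degree_eq_sum]

/-- enumeration of the exponents -/
noncomputable def en (κ : Type) [Fintype κ] [DecidableEq κ] (k : ℕ) :
    Fin (Ek κ k).card ≃ Ek κ k := (Ek κ k).equivFin.symm

/-- the polynomial with given coefficients -/
noncomputable def pol (k : ℕ) (v : Fin (Ek κ k).card → R) : MvPolynomial κ R :=
  ∑ i, monomial (en κ k i : κ →₀ ℕ) (v i)

theorem pol_coeff {k : ℕ} {G : MvPolynomial κ R} (h : G.IsHomogeneous k) :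
    pol k (fun i => coeff (en κ k i : κ →₀ ℕ) G) = G := by
  unfold pol
  have h1 : ∑ i, monomial (en κ k i : κ →₀ ℕ) (coeff (en κ k i : κ →₀ ℕ) G) =
      ∑ β : Ek κ k, monomial (β : κ →₀ ℕ) (coeff (β : κ →₀ ℕ) G) :=
    Equiv.sum_comp (en κ k) (fun β : Ek κ k => monomial (β : κ →₀ ℕ) (coeff (β : κ →₀ ℕ) G))
  rw [h1, Finset.sum_coe_sort (Ek κ k) (fun β => monomial β (coeff β G))]
  conv_rhs => rw [← G.support_sum_monomial_coeff]
  symm
  apply Finset.sum_subset
  · intro β hβ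
    rw [mem_Ek]
    have := h (mem_support_iff.1 hβ)
    rwa [Finsupp.degree_eq_weight_one] 
  · intro β _ hβ
    rw [notMem_support_iff.1 hβ, map_zero]

theorem pol_add {k : ℕ} (v w : Fin (Ek κ k).card → R) : pol k (v + w) = pol k v + pol k w := by
  unfold pol
  rw [← Finset.sum_add_distrib]
  refine Finset.sum_congr rfl fun i _ => ?_
  rw [Pi.add_apply, map_add]

theorem pol_smul {k : ℕ} (r : R) (v : Fin (Ek κ k).card → R) : pol k (r • v) = C r * pol k v := by
  unfold pol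
  rw [Finset.mul_sum]
  refine Finset.sum_congr rfl fun i _ => ?_
  rw [Pi.smul_apply, smul_eq_mul, C_mul_monomial]

theorem pol_zero {k : ℕ} : pol k (0 : Fin (Ek κ k).card → R) = 0 := by
  unfold pol
  simp

theorem map_pol {R' : Type} [CommRing R'] (φ : R →+* R') {k : ℕ} (v : Fin (Ek κ k).card → R) :
    MvPolynomial.map φ (pol k v) = pol k (fun i => φ (v i)) := by
  unfold pol
  rw [map_sum]
  refine Finset.sum_congr rfl fun i _ => ?_
  rw [MvPolynomial.map_monomial]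

end

theorem map_iLR {σ τ : Type} [Fintype τ] (t : ℂ) (P : LmR (Polynomial ℂ) σ τ) :
    MvPolynomial.map (Polynomial.evalRingHom t) (iLR P) = iLR (vl t P) := by
  simp only [iLR, vl, map_add, map_sum, map_mul, MvPolynomial.map_rename, MvPolynomial.map_X]

/-- at a good parameter the Taylor coefficient is the value of a family -/
theorem lim_point (hGNA : GNAStmt) {L : Type} [LieRing L] [LieAlgebra ℂ L]
    [FiniteDimensional ℂ L] {V : LieIdeal ℂ L} {s q : ℕ} {b : Basis (Fin s ⊕ Fin q) ℂ L}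
    {a₀ b₀ : Fin s ⊕ Fin q → ℂ} (hab : IsAb V) (hC : CondC V) (hAd : Adp V b) {K k : ℕ}
    (hk : 1 ≤ k) (hkK : k ≤ K) {t : ℂ}
    (hN : ∀ Q : ℕ → LmR ℂ (Fin s) (Fin q), (∀ n, 1 ≤ n → n ≤ 2 * K → HomR n (Q n)) →
      Chn (stc b) (aC (stc b) (fun z => a₀ z + t * b₀ z)) (2 * K) (fun n => iLR (Q n)) →
      ∃ Q' : ℕ → LmR (Polynomial ℂ) (Fin s) (Fin q),
        (∀ n, 1 ≤ n → n ≤ 2 * K → HomR n (Q' n)) ∧
        Chn (cX (stc b)) (aX (stc b) a₀ b₀) (2 * K) (fun n => iLR (Q' n)) ∧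
        ∀ n, 1 ≤ n → n ≤ 2 * K → vl t (Q' n) = Q n)
    (hG : Gen V (dualC b (fun z => a₀ z + t * b₀ z)))
    {f : (Fin s ⊕ Fin q → ℂ) → ℂ} (hf : InvAt (opA b) (fun z => a₀ z + t * b₀ z) f)
    {p : MvPolynomial (Fin s ⊕ Fin q) ℂ}
    (hp : ∀ x, tayE (fun z => a₀ z + t * b₀ z) f k x = eval x p) :
    ∃ G, InG (stc b) (aX (stc b) a₀ b₀) K k G ∧
      MvPolynomial.map (Polynomial.evalRingHom t) G = p := by
  obtain ⟨J, Q, i, F, hi, hQ, hQc, hF, hE⟩ := hGNA L V s q b (fun z => a₀ z + t * b₀ z) hab hC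
    hAd hG f k hf hk
  have hpF : aeval (fun j => iLR (Q j (i j))) F = p := by
    apply MvPolynomial.funext
    intro x
    rw [← hp x, hE x]
  choose Q' hQ'h hQ'c hQ'v using fun j => hN (Q j) (fun n hn _ => hQ j n hn) (hQc j (2 * K))
  have hvars : ↑F.vars ⊆ Set.range (Subtype.val : {j : J // i j ≤ K} → J) := by
    intro x hx
    rw [Subtype.range_coe_subtype]
    obtain ⟨β, hβ, hxβ⟩ := (mem_vars x).1 hx
    have h1 := hF (mem_support_iff.1 hβ)
    rw [Finsupp.weight_apply, Finsupp.sum] at h1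
    have h2 : β x • i x ≤ ∑ y ∈ β.support, β y • i y :=
      Finset.single_le_sum (f := fun y => β y • i y) (fun _ _ => Nat.zero_le _) hxβ
    have h3 : 1 ≤ β x := Nat.one_le_iff_ne_zero.2 (Finsupp.mem_support_iff.1 hxβ)
    rw [h1, smul_eq_mul] at h2
    have h4 : i x ≤ β x * i x := Nat.le_mul_of_pos_left _ h3
    show i x ≤ K
    omega
  obtain ⟨F₀, hF₀⟩ := exists_rename_eq_of_vars_subset_range F _ Subtype.val_injective hvars
  let xx : {j : J // i j ≤ K} → JK (stc b) (aX (stc b) a₀ b₀) K := fun j =>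
    ⟨(i j.1, Q' j.1 (i j.1)), hi j.1, j.2, Q' j.1, hQ'h j.1, hQ'c j.1, rfl⟩
  have hwF₀ : F₀.IsWeightedHomogeneous (fun j => i j.1) k :=
    wh_of_rename (w := i) Subtype.val_injective (by rw [hF₀]; exact hF)
  refine ⟨aeval (fun x : JK (stc b) (aX (stc b) a₀ b₀) K => iLR x.1.2)
    (rename xx (MvPolynomial.map Polynomial.C F₀)),
    ⟨0, rename xx (MvPolynomial.map Polynomial.C F₀), ?_, ?_⟩, ?_⟩
  · apply wh_rename
    intro β hβ
    rw [coeff_map] at hβ
    have h1 : coeff β F₀ ≠ 0 := by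
      intro h
      apply hβ
      rw [h, map_zero]
    exact hwF₀ h1
  · rw [pow_zero, C_1, one_mul]
  · rw [aeval_rename, ← hpF, ← hF₀, aeval_rename]
    clear hwF₀ hF₀ hvars
    induction F₀ using MvPolynomial.induction_on with
    | C r => simp
    | add p p' hp hp' => simp only [map_add, hp, hp']
    | mul_X p j hp =>
      rw [map_mul, map_mul, map_mul, hp, map_mul, MvPolynomial.map_X, aeval_X, aeval_X]
      congr 1
      simp only [Function.comp_apply, xx]
      rw [map_iLR, hQ'v j.1 (i j.1) (hi j.1) (by have := j.2; omega)]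

theorem t_lim (hNSP : NSPStmt) (hSAT : SATStmt) (hGNA : GNAStmt) (hTLM : TLMStmt) :
    LIMStmt := by
  intro L _ _ _ V s q b a₀ b₀ hab hC hAd hGen f K k p hf hk hkK hph hp
  obtain ⟨Bad, hBad⟩ := hNSP (Fin s) (Fin q) (stc b) a₀ b₀ (2 * K)
  -- continuity of the line
  have hcont : Filter.Tendsto (fun t : ℂ => (fun z => a₀ z + t * b₀ z)) (nhds 0) (nhds a₀) := by
    have h1 : Continuous (fun t : ℂ => (fun z => a₀ z + t * b₀ z)) := by
      apply continuous_pi
      intro z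
      fun_prop
    have h2 := h1.tendsto 0
    simpa using h2
  have hInv : ∀ᶠ t : ℂ in nhds 0, InvAt (opA b) (fun z => a₀ z + t * b₀ z) f := by
    have h1 := hcont.eventually hf.1.eventually_analyticAt
    have h2 := hcont.eventually hf.2.eventually_nhds
    filter_upwards [h1, h2] with t ht1 ht2
    exact ⟨ht1, ht2⟩
  -- the polynomials
  have hex : ∀ t : ℂ, ∃ pt : MvPolynomial (Fin s ⊕ Fin q) ℂ,
      AnalyticAt ℂ f (fun z => a₀ z + t * b₀ z) → (pt.IsHomogeneous k ∧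
        ∀ x, tayE (fun z => a₀ z + t * b₀ z) f k x = eval x pt) := by
    intro t
    by_cases ha : AnalyticAt ℂ f (fun z => a₀ z + t * b₀ z)
    · obtain ⟨pt, h1, h2⟩ := t_tph (Fin s ⊕ Fin q) _ f k ha
      exact ⟨pt, fun _ => ⟨h1, h2⟩⟩
    · exact ⟨0, fun h => absurd h ha⟩
  choose P hP using hex
  have hzero : (fun z => a₀ z + (0 : ℂ) * b₀ z) = a₀ := by
    funext z; ring
  have hP0 : P 0 = p := by
    apply MvPolynomial.funext
    intro x
    have h1 := (hP 0 (by rw [hzero]; exact hf.1)).2 x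
    rw [hzero] at h1
    rw [← h1, hp x]
  have hlim := hTLM (Fin s ⊕ Fin q) a₀ b₀ f k P hf.1 (by
    filter_upwards [hInv] with t ht
    exact hP t ht.1)
  -- the module
  let M : Submodule (Polynomial ℂ) (Fin (Ek (Fin s ⊕ Fin q) k).card → Polynomial ℂ) :=
    { carrier := {v | InG (stc b) (aX (stc b) a₀ b₀) K k (pol k v)}
      add_mem' := by
        intro v w hv hw
        show InG _ _ _ _ (pol k (v + w))
        rw [pol_add]
        exact inG_add hv hw
      zero_mem' := by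
        show InG _ _ _ _ (pol k 0)
        rw [pol_zero]
        exact inG_zero
      smul_mem' := by
        intro r v hv
        show InG _ _ _ _ (pol k (r • v))
        rw [pol_smul]
        exact inG_smul r hv }
  have hMsat : ∀ g : Fin (Ek (Fin s ⊕ Fin q) k).card → Polynomial ℂ,
      (Polynomial.X : Polynomial ℂ) • g ∈ M → g ∈ M := by
    intro g hg
    have h1 : InG (stc b) (aX (stc b) a₀ b₀) K k (pol k ((Polynomial.X : Polynomial ℂ) • g)) := hg
    rw [pol_smul] at h1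
    exact inG_sat h1
  -- the good parameters
  let T : Set ℂ := {t | t ∉ Bad ∧ Gen V (dualC b (fun z => a₀ z + t * b₀ z)) ∧
    InvAt (opA b) (fun z => a₀ z + t * b₀ z) f}
  have hT : ∀ᶠ t : ℂ in nhdsWithin 0 {0}ᶜ, t ∈ T := by
    have h1 : ∀ᶠ t : ℂ in nhdsWithin 0 {0}ᶜ, t ∉ Bad := by
      have h2 : ((Bad : Set ℂ) \ {0})ᶜ ∈ nhds (0 : ℂ) := by
        apply IsOpen.mem_nhds
        · exact ((Bad.finite_toSet.subset Set.diff_subset).isClosed).isOpen_compl
        · simp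
      have h3 : ∀ᶠ t : ℂ in nhdsWithin 0 {0}ᶜ, t ∈ ((Bad : Set ℂ) \ {0})ᶜ :=
        mem_nhdsWithin_of_mem_nhds h2
      filter_upwards [h3, self_mem_nhdsWithin] with t ht ht0
      intro hb
      exact ht ⟨hb, ht0⟩
    filter_upwards [h1, hGen, hInv.filter_mono nhdsWithin_le_nhds] with t h1 h2 h3
    exact ⟨h1, h2, h3⟩
  have hcl : (0 : ℂ) ∈ closure (T \ {0}) := by
    rw [mem_closure_iff_nhdsWithin_neBot]
    have h1 : (nhdsWithin (0 : ℂ) {0}ᶜ).NeBot := inferInstance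
    refine Filter.NeBot.mono h1 ?_
    rw [Filter.le_def]
    intro A hA
    obtain ⟨U, hU, hUA⟩ := mem_nhdsWithin_iff_exists_mem_nhds_inter.1 hA
    have h2 : U ∈ nhdsWithin (0 : ℂ) {0}ᶜ := mem_nhdsWithin_of_mem_nhds hU
    have h3 : T ∈ nhdsWithin (0 : ℂ) {0}ᶜ := hT
    have h4 : ({0}ᶜ : Set ℂ) ∈ nhdsWithin (0 : ℂ) {0}ᶜ := self_mem_nhdsWithin
    filter_upwards [h2, h3, h4] with t t2 t3 t4
    exact hUA ⟨t2, t3, t4⟩
  obtain ⟨g, hgM, hg0⟩ := hSAT (Ek (Fin s ⊕ Fin q) k).card M hMsat T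
    (fun t i => coeff (en (Fin s ⊕ Fin q) k i : (Fin s ⊕ Fin q) →₀ ℕ) (P t))
    (fun i => coeff (en (Fin s ⊕ Fin q) k i : (Fin s ⊕ Fin q) →₀ ℕ) (P 0)) hcl (by
      rw [tendsto_pi_nhds]
      intro i
      exact (hlim _).mono_left nhdsWithin_le_nhds) (by
      rintro t ⟨ht1, ht2, ht3⟩ _
      obtain ⟨G, hG, hGp⟩ := lim_point hGNA hab hC hAd hk hkK (hBad t ht1) ht2 ht3
        (hP t ht3.1).2
      refine ⟨fun i => coeff (en (Fin s ⊕ Fin q) k i : (Fin s ⊕ Fin q) →₀ ℕ) G, ?_, ?_⟩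
      · show InG _ _ _ _ (pol k _)
        rw [pol_coeff (inG_homog hG)]
        exact hG
      · intro i
        rw [← hGp, coeff_map]
        rfl)
  refine ⟨pol k g, hgM, ?_⟩
  rw [map_pol]
  have h1 : (fun i => (Polynomial.evalRingHom (0 : ℂ)) (g i)) =
      fun i => coeff (en (Fin s ⊕ Fin q) k i : (Fin s ⊕ Fin q) →₀ ℕ) p := by
    funext i
    rw [← hP0, ← hg0 i]
    rfl
  rw [h1, pol_coeff hph]

end Pool.MFL
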