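import Pool.Agent.H51.MFL.S

/-!
# MFL, row RLF: facts on the relation between families and their lifts
-/

set_option autoImplicit false

open Module MvPolynomial

namespace Pool.MFL

open Pool.MFQ Pool.MFM

section

variable {R L σ τ J : Type} [CommRing R] [LieRing L] [LieAlgebra R L] [Fintype τ]

theorem isEv_unique {b : Basis (σ ⊕ τ) R L}
    {e : MvPolynomial σ (Polynomial R) →+* Polynomial (UniversalEnvelopingAlgebra R L)}
    {P : J → LmR (Polynomial R) σ τ}
    {ev ev' : MvPolynomial J (Polynomial R) →+* Polynomial (UniversalEnvelopingAlgebra R L)}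
    (h : IsEv b e P ev) (h' : IsEv b e P ev') : ev = ev' := by
  apply MvPolynomial.ringHom_ext
  · intro f
    rw [h.hC, h'.hC]
  · intro j
    rw [h.hX, h'.hX]

theorem adC_cX [Fintype σ] {c : σ ⊕ τ → σ ⊕ τ → σ ⊕ τ → R} (h : AdC c) : AdC (cX c) := by
  constructor
  · intro i j k
    simp only [cX]
    rw [h.skew i j k, Polynomial.C_neg]
  · intro l m k
    simp only [cX]
    rw [h.ab l m k, Polynomial.C_0]
  · intro z l i
    simp only [cX]
    rw [h.idl z l i, Polynomial.C_0]

theorem ev_CXpow {b : Basis (σ ⊕ τ) R L}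
    {e : MvPolynomial σ (Polynomial R) →+* Polynomial (UniversalEnvelopingAlgebra R L)}
    {P : J → LmR (Polynomial R) σ τ}
    {ev : MvPolynomial J (Polynomial R) →+* Polynomial (UniversalEnvelopingAlgebra R L)}
    (h : IsEv b e P ev) (m : ℕ) : ev (C (Polynomial.X ^ m)) = Polynomial.X ^ m := by
  rw [h.hC]
  simp [Polynomial.map_pow]

end

theorem iLR_zero {R σ τ : Type} [CommRing R] [Fintype τ] :
    iLR (0 : LmR R σ τ) = 0 := by
  simp [iLR]

theorem aX_skew {κ : Type} [Fintype κ] {c : κ → κ → κ → ℂ} (hc : ∀ i j k, c i j k = -c j i k)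
    (a b : κ → ℂ) (i j : κ) : aX c a b i j = -aX c a b j i := by
  have h : ∀ t : κ → ℂ, aC c t i j = -aC c t j i := by
    intro t
    simp only [aC]
    rw [← Finset.sum_neg_distrib]
    refine Finset.sum_congr rfl fun k _ => ?_
    rw [hc i j k]; ring
  simp only [aX]
  rw [h a, h b, Polynomial.C_neg, Polynomial.C_neg]
  ring

section

variable {s q : ℕ} {c : Fin s ⊕ Fin q → Fin s ⊕ Fin q → Fin s ⊕ Fin q → ℂ}
  {α : Fin s ⊕ Fin q → Fin s ⊕ Fin q → Polynomial ℂ}

theorem jk_one {K : ℕ} (x : JK c α K) : 1 ≤ x.1.1 := x.2.1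

theorem jk_le {K : ℕ} (x : JK c α K) : x.1.1 ≤ K := x.2.2.1

theorem jk_hom {K : ℕ} (x : JK c α K) : HomR x.1.1 x.1.2 := by
  obtain ⟨h1, h2, Q, hQ, _, hx⟩ := x.2
  rw [← hx]
  exact hQ _ h1 (by omega)

theorem jk_br (hLEN : LENStmt) (hPOX : POXStmt) (hc : AdC c) (hα : ∀ i j, α i j = -α j i)
    {K : ℕ} (x y : JK c α K) : brC (cX c) x.1.2 y.1.2 = 0 := by
  obtain ⟨h1, h2, Q, hQ, hQc, hx⟩ := x.2
  obtain ⟨g1, g2, Q', hQ', hQc', hy⟩ := y.2
  have hcX := adC_cX hc
  have h : pbR (cX c) (iLR (Q x.1.1)) (iLR (Q' y.1.1)) = 0 :=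
    hLEN (Polynomial ℂ) (Fin s ⊕ Fin q) (cX c) α (2 * K) (fun n => iLR (Q n))
      (fun n => iLR (Q' n)) (fun i j k => hcX.skew i j k)
      hα hQc hQc' x.1.1 y.1.1 h1 g1 (by omega)
  obtain ⟨hinj, hbr⟩ := hPOX (Polynomial ℂ) (Fin s) (Fin q) (cX c) hcX
  rw [hx, hy, hbr] at h
  apply hinj
  rw [h, iLR_zero]

/-- members of level `K + 1` of position at most `K` -/
def jkDown {K : ℕ} (x : {x : JK c α (K + 1) // x.1.1 ≤ K}) : JK c α K :=
  ⟨x.1.1, by
    obtain ⟨h1, _, Q, hQ, hQc, hx⟩ := x.1.2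
    refine ⟨h1, x.2, Q, fun n hn hn' => hQ n hn (by omega), ?_, hx⟩
    exact ⟨hQc.one, fun i hi hi' z => hQc.step i hi (by omega) z⟩⟩

theorem jkDown_val {K : ℕ} (x : {x : JK c α (K + 1) // x.1.1 ≤ K}) :
    (jkDown x).1 = x.1.1 := rfl

end

section

theorem wh_rename {R ι κ : Type} [CommRing R] {w : κ → ℕ} {g : ι → κ} {p : MvPolynomial ι R}
    {k : ℕ} (h : p.IsWeightedHomogeneous (fun x => w (g x)) k) :
    (rename g p).IsWeightedHomogeneous w k := by
  intro β hβ
  obtain ⟨β', hβ', hne⟩ := coeff_rename_ne_zero g p β hβ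
  have := h hne
  rw [← hβ', ← this]
  simp only [Finsupp.weight_apply]
  rw [Finsupp.sum_mapDomain_index]
  · intro x; simp
  · intro x m n; simp [add_mul]

theorem wh_of_rename {R ι κ : Type} [CommRing R] {w : κ → ℕ} {g : ι → κ}
    (hg : Function.Injective g) {p : MvPolynomial ι R}
    {k : ℕ} (h : (rename g p).IsWeightedHomogeneous w k) :
    p.IsWeightedHomogeneous (fun x => w (g x)) k := by
  intro β hβ
  have h1 : coeff (Finsupp.mapDomain g β) (rename g p) ≠ 0 := by
    rw [coeff_rename_mapDomain g hg]; exact hβ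
  have := h h1
  rw [← this]
  simp only [Finsupp.weight_apply]
  rw [Finsupp.sum_mapDomain_index]
  · intro x; simp
  · intro x m n; simp [add_mul]

theorem wh_CMul {R ι : Type} [CommRing R] {w : ι → ℕ} {p : MvPolynomial ι R}
    {k : ℕ} (r : R) (h : p.IsWeightedHomogeneous w k) :
    (C r * p).IsWeightedHomogeneous w k := by
  have := (isWeightedHomogeneous_C w r).mul h
  rwa [zero_add] at this

end

/-- a polynomial over `R[t]` with vanishing value at `t = 0` -/
theorem dvd_of_map_zero {ι : Type} (G : MvPolynomial ι (Polynomial ℂ))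
    (h : MvPolynomial.map (Polynomial.evalRingHom 0) G = 0) :
    ∃ G', G = C Polynomial.X * G' := by
  have h1 : C (Polynomial.X : Polynomial ℂ) ∣ G := by
    rw [MvPolynomial.C_dvd_iff_dvd_coeff]
    intro β
    have h2 : coeff β (MvPolynomial.map (Polynomial.evalRingHom 0) G) = 0 := by rw [h]; simp
    rw [coeff_map] at h2
    rw [Polynomial.X_dvd_iff, Polynomial.coeff_zero_eq_eval_zero]
    simpa using h2
  exact h1

theorem xpow_cancel {U : Type} [Ring U] (m : ℕ) (u v : Polynomial U)
    (h : Polynomial.X ^ m * u = Polynomial.X ^ m * v) : u = v := by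
  ext n
  have := congrArg (fun p => Polynomial.coeff p (n + m)) h
  simpa [Polynomial.coeff_X_pow_mul] using this

theorem t_rlf (hV0X : V0XStmt) (hEVX : EVXStmt) (hSYX : SYXStmt) (hLEN : LENStmt)
    (hPOX : POXStmt) : RLFStmt := by
  intro L _ _ _ s q b a₀ b₀ hAd e he
  set α := aX (stc b) a₀ b₀ with hαdef
  have hα : ∀ i j, α i j = -α j i := fun i j => aX_skew (fun i j k => hAd.skew i j k) a₀ b₀ i j
  have hbr : ∀ K, ∀ x y : JK (stc b) α K, brC (cX (stc b)) x.1.2 y.1.2 = 0 := fun K x y =>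
    jk_br hLEN hPOX hAd hα x y
  have hev : ∀ K, ∃ ev, IsEv b e (fun x : JK (stc b) α K => x.1.2) ev ∧
      ∀ F G, ev F * ev G = ev G * ev F := fun K =>
    hEVX ℂ L (Fin s) (Fin q) (JK (stc b) α K) b hAd e he _ (hbr K)
  have hdiv : ∀ K, ∀ ev, IsEv b e (fun x : JK (stc b) α K => x.1.2) ev →
      ∀ (k m : ℕ) (F : MvPolynomial (JK (stc b) α K) (Polynomial ℂ)),
      F.IsWeightedHomogeneous (fun x => x.1.1) k →
      C (Polynomial.X ^ m) ∣ aeval (fun x : JK (stc b) α K => iLR x.1.2) F →
      ∃ u : Polynomial (UniversalEnvelopingAlgebra ℂ L), ev F = Polynomial.X ^ m * u := by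
    intro K ev hevK k m F hF hd
    exact hV0X L (JK (stc b) α K) s q b hAd (fun x => x.1.2) (fun x => x.1.1) k m
      (fun x => jk_one x) (fun x => jk_hom x) (hbr K) e he ev hevK F hF hd
  refine ⟨?_, ?_⟩
  · refine ⟨?_, ?_, ?_, ?_, ?_, ?_, ?_, ?_, ?_⟩
    · -- add
      rintro K k g u g' u' ⟨ev, m, F, G, û, hE, hF, hA, hU, hG, hc⟩
        ⟨ev', m', F', G', û', hE', hF', hA', hU', hG', hc'⟩
      obtain rfl := isEv_unique hE hE'
      refine ⟨ev, m + m', C (Polynomial.X ^ m') * F + C (Polynomial.X ^ m) * F', G + G', û + û',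
        hE, ?_, ?_, ?_, ?_, ?_⟩
      · exact (wh_CMul _ hF).add (wh_CMul _ hF')
      · rw [map_add, map_mul, map_mul, hA, hA', MvPolynomial.aeval_C, MvPolynomial.aeval_C,
          MvPolynomial.algebraMap_eq, pow_add, C_mul]
        ring
      · rw [map_add, map_mul, map_mul, hU, hU', ev_CXpow hE, ev_CXpow hE, ← mul_assoc,
          ← mul_assoc, ← pow_add, ← pow_add, add_comm m' m, mul_add]
      · rw [map_add, hG, hG']
      · rw [Polynomial.coeff_add, hc, hc']
    · -- smul
      rintro K k z g u ⟨ev, m, F, G, û, hE, hF, hA, hU, hG, hc⟩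
      refine ⟨ev, m, C (Polynomial.C z) * F, C (Polynomial.C z) * G,
        Polynomial.C (algebraMap ℂ (UniversalEnvelopingAlgebra ℂ L) z) * û, hE, wh_CMul _ hF,
        ?_, ?_, ?_, ?_⟩
      · rw [map_mul, hA, MvPolynomial.aeval_C, MvPolynomial.algebraMap_eq]
        ring
      · rw [map_mul, hU, hE.hC, Polynomial.map_C, ← mul_assoc, ← mul_assoc,
          Polynomial.X_pow_mul]
      · rw [map_mul, hG, MvPolynomial.map_C]
        simp [MvPolynomial.smul_eq_C_mul]
      · rw [Polynomial.coeff_C_mul, hc, Algebra.smul_def]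
    · -- one
      intro K
      obtain ⟨ev, hE, _⟩ := hev K
      refine ⟨ev, 0, 1, 1, 1, hE, isWeightedHomogeneous_one _ _, ?_, ?_, ?_, ?_⟩
      · simp
      · simp
      · simp
      · simp
    · -- mul
      rintro K k l g u g' u' ⟨ev, m, F, G, û, hE, hF, hA, hU, hG, hc⟩
        ⟨ev', m', F', G', û', hE', hF', hA', hU', hG', hc'⟩
      obtain rfl := isEv_unique hE hE'
      refine ⟨ev, m + m', F * F', G * G', û * û', hE, hF.mul hF', ?_, ?_, ?_, ?_⟩
      · rw [map_mul, hA, hA', pow_add, C_mul]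
        ring
      · rw [map_mul, hU, hU', pow_add]
        have h1 : û * Polynomial.X ^ m' = Polynomial.X ^ m' * û :=
          (Polynomial.X_pow_mul).symm
        calc Polynomial.X ^ m * û * (Polynomial.X ^ m' * û')
            = Polynomial.X ^ m * (û * Polynomial.X ^ m') * û' := by noncomm_ring
          _ = Polynomial.X ^ m * Polynomial.X ^ m' * (û * û') := by
              rw [h1]; noncomm_ring
      · rw [map_mul, hG, hG']
      · rw [Polynomial.mul_coeff_zero, hc, hc']
    · -- zero0
      intro K k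
      obtain ⟨ev, hE, _⟩ := hev K
      refine ⟨ev, 0, 0, 0, 0, hE, isWeightedHomogeneous_zero _ _ _, ?_, ?_, ?_, ?_⟩
      · simp
      · simp
      · simp
      · simp
    · -- zero
      rintro K k u ⟨ev, m, F, G, û, hE, hF, hA, hU, hG, hc⟩
      obtain ⟨G', rfl⟩ := dvd_of_map_zero G hG
      obtain ⟨u', hu'⟩ := hdiv K ev hE k (m + 1) F hF
        ⟨G', by rw [hA, pow_succ, C_mul]; ring⟩
      rw [hU, pow_succ, mul_assoc] at hu'
      have h1 := xpow_cancel m _ _ hu'
      rw [← hc, h1]
      simp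
    · -- comm
      rintro K k l g u g' u' ⟨ev, m, F, G, û, hE, hF, hA, hU, hG, hc⟩
        ⟨ev', m', F', G', û', hE', hF', hA', hU', hG', hc'⟩
      obtain rfl := isEv_unique hE hE'
      obtain ⟨ev₁, hE₁, hcomm⟩ := hev K
      obtain rfl := isEv_unique hE hE₁
      have h := hcomm F F'
      rw [hU, hU'] at h
      have h1 : ∀ (w w' : Polynomial (UniversalEnvelopingAlgebra ℂ L)) (n n' : ℕ),
          Polynomial.X ^ n * w * (Polynomial.X ^ n' * w') =
            Polynomial.X ^ (n + n') * (w * w') := by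
        intro w w' n n'
        have h1 : w * Polynomial.X ^ n' = Polynomial.X ^ n' * w := (Polynomial.X_pow_mul).symm
        calc Polynomial.X ^ n * w * (Polynomial.X ^ n' * w')
            = Polynomial.X ^ n * (w * Polynomial.X ^ n') * w' := by noncomm_ring
          _ = Polynomial.X ^ (n + n') * (w * w') := by
              rw [h1, pow_add]; noncomm_ring
      rw [h1, h1, add_comm m' m] at h
      have h2 := xpow_cancel _ _ _ h
      have h3 := congrArg (fun p => Polynomial.coeff p 0) h2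
      simp only [Polynomial.mul_coeff_zero] at h3
      rw [hc, hc'] at h3
      exact h3
    · -- sym
      rintro K k g u ⟨ev, m, F, G, û, hE, hF, hA, hU, hG, hc⟩
      have h := hSYX L (JK (stc b) α K) s q b hAd (fun x => x.1.2) (fun x => x.1.1) k
        (fun x => jk_one x) (fun x => jk_hom x) e he ev hE F hF m
      have h1 : (ev F).coeff m = u := by
        rw [hU, Polynomial.coeff_X_pow_mul', if_pos le_rfl, Nat.sub_self, hc]
      rw [h1] at h
      convert h using 1
      funext ξ
      rw [hA, map_mul, eval_C, Polynomial.coeff_X_pow_mul', if_pos le_rfl, Nat.sub_self, ← hG,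
        Polynomial.coeff_zero_eq_eval_zero]
      have h2 : ∀ G : MvPolynomial (Fin s ⊕ Fin q) (Polynomial ℂ),
          evP b (MvPolynomial.map (Polynomial.evalRingHom 0) G) ξ =
          Polynomial.eval 0 (eval (fun z => Polynomial.C (ξ (b z))) G) := by
        intro G
        induction G using MvPolynomial.induction_on with
        | C r => simp [evP]
        | add p p' hp hp' => simp only [map_add, Pi.add_apply, Polynomial.eval_add, hp, hp']
        | mul_X p i hp =>
          rw [map_mul, map_mul, map_mul, Pi.mul_apply, hp, Polynomial.eval_mul]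
          simp [evP]
      exact h2 G
    · -- mono
      rintro K k g u hkK ⟨ev, m, F, G, û, hE, hF, hA, hU, hG, hc⟩
      have hvars : ↑F.vars ⊆ Set.range
          (Subtype.val : {x : JK (stc b) α (K + 1) // x.1.1 ≤ K} → JK (stc b) α (K + 1)) := by
        intro x hx
        rw [Subtype.range_coe_subtype]
        obtain ⟨β, hβ, hxβ⟩ := (mem_vars x).1 hx
        have h1 := hF (mem_support_iff.1 hβ)
        rw [Finsupp.weight_apply, Finsupp.sum] at h1
        have h2 : β x • x.1.1 ≤ ∑ y ∈ β.support, β y • y.1.1 :=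
          Finset.single_le_sum (f := fun y => β y • y.1.1) (fun _ _ => Nat.zero_le _) hxβ
        have h3 : 1 ≤ β x := Nat.one_le_iff_ne_zero.2 (Finsupp.mem_support_iff.1 hxβ)
        rw [h1, smul_eq_mul] at h2
        have h4 : x.1.1 ≤ β x * x.1.1 := Nat.le_mul_of_pos_left _ h3
        show x.1.1 ≤ K
        omega
      obtain ⟨p, hp⟩ := exists_rename_eq_of_vars_subset_range F _ Subtype.val_injective hvars
      obtain ⟨ev₀, hE₀, _⟩ := hev K
      have hcomp : ∀ p' : MvPolynomial {x : JK (stc b) α (K + 1) // x.1.1 ≤ K} (Polynomial ℂ),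
          ev₀ (rename jkDown p') = ev (rename Subtype.val p') := by
        intro p'
        have h1 : ev₀.comp (rename (R := Polynomial ℂ)
            (jkDown : {x : JK (stc b) α (K + 1) // x.1.1 ≤ K} → JK (stc b) α K)).toRingHom =
          ev.comp (rename (R := Polynomial ℂ) (Subtype.val :
            {x : JK (stc b) α (K + 1) // x.1.1 ≤ K} → JK (stc b) α (K + 1))).toRingHom := by
          apply MvPolynomial.ringHom_ext
          · intro f
            simp only [RingHom.comp_apply, AlgHom.toRingHom_eq_coe, RingHom.coe_coe, rename_C]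
            rw [hE₀.hC, hE.hC]
          · intro x
            simp only [RingHom.comp_apply, AlgHom.toRingHom_eq_coe, RingHom.coe_coe, rename_X]
            rw [hE₀.hX, hE.hX, jkDown_val]
        exact congrFun (congrArg DFunLike.coe h1) p'
      refine ⟨ev₀, m, rename jkDown p, G, û, hE₀, ?_, ?_, ?_, hG, hc⟩
      · apply wh_rename
        have h1 := wh_of_rename (w := fun x : JK (stc b) α (K + 1) => x.1.1)
          Subtype.val_injective (p := p) (by rw [hp]; exact hF)
        exact h1
      · rw [← hA, ← hp, aeval_rename, aeval_rename]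
        rfl
      · rw [hcomp, hp, hU]
  · rintro K k G ⟨m, F, hF, hA⟩
    obtain ⟨ev, hE, _⟩ := hev K
    obtain ⟨û, hû⟩ := hdiv K ev hE k m F hF ⟨G, hA⟩
    exact ⟨û.coeff 0, ev, m, F, G, û, hE, hF, hA, hû, rfl, rfl⟩

end Pool.MFL
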